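import Pool.Agent.PXE.Stmts

set_option autoImplicit false

/-!
# Squad PXE, row ELX: no common zero with one special coordinate
-/

namespace Pool.Agent.PXE.H15

open Polynomial
open Pool.Agent.PXE

/-- the evaluation of the generic line at `e` -/
theorem ev_psi {E Om : Type} [Field E] [Field Om] [Algebra E Om] (z : ℕ)
    (j e : MvPolynomial ℕ E →ₐ[E] Om)
    (he : ∀ i, i ≠ z → e (MvPolynomial.X i) = j (MvPolynomial.X i)) (p : MvPolynomial ℕ E) :
    Polynomial.eval₂RingHom (j : MvPolynomial ℕ E →+* Om)
      (e (MvPolynomial.X z) - j (MvPolynomial.X z)) (psi (Pi.single z 1) p) = e p := by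
  have h : ((Polynomial.eval₂RingHom (j : MvPolynomial ℕ E →+* Om)
      (e (MvPolynomial.X z) - j (MvPolynomial.X z))).comp
      ((psi (Pi.single z 1 : ℕ → E)) : MvPolynomial ℕ E →+* (MvPolynomial ℕ E)[X])) =
      (e : MvPolynomial ℕ E →+* Om) := by
    apply MvPolynomial.ringHom_ext
    · intro c
      have h1 : psi (Pi.single z 1 : ℕ → E) (MvPolynomial.C c) =
          Polynomial.C (MvPolynomial.C c) := by
        unfold psi
        rw [MvPolynomial.aeval_C]
        rfl
      change Polynomial.eval₂RingHom (j : MvPolynomial ℕ E →+* Om) _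
        (psi (Pi.single z 1 : ℕ → E) (MvPolynomial.C c)) = e (MvPolynomial.C c)
      rw [h1, Polynomial.coe_eval₂RingHom, Polynomial.eval₂_C]
      change j (algebraMap E (MvPolynomial ℕ E) c) = e (algebraMap E (MvPolynomial ℕ E) c)
      rw [AlgHom.commutes, AlgHom.commutes]
    · intro s
      have h1 : psi (Pi.single z 1 : ℕ → E) (MvPolynomial.X s) =
          Polynomial.C (MvPolynomial.X s) +
            Polynomial.C (MvPolynomial.C ((Pi.single z 1 : ℕ → E) s)) * Polynomial.X := by
        unfold psi
        rw [MvPolynomial.aeval_X]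
      change Polynomial.eval₂RingHom (j : MvPolynomial ℕ E →+* Om) _
        (psi (Pi.single z 1 : ℕ → E) (MvPolynomial.X s)) = e (MvPolynomial.X s)
      rw [h1, Polynomial.coe_eval₂RingHom, Polynomial.eval₂_add, Polynomial.eval₂_mul,
        Polynomial.eval₂_C, Polynomial.eval₂_C, Polynomial.eval₂_X]
      by_cases hs : s = z
      · subst hs
        rw [Pi.single_eq_same, map_one, map_one, one_mul]
        change j (MvPolynomial.X s) + (e (MvPolynomial.X s) - j (MvPolynomial.X s)) =
          e (MvPolynomial.X s)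
        ring
      · rw [Pi.single_eq_of_ne hs, map_zero, map_zero, zero_mul, add_zero]
        exact (he s hs).symm
  exact congrArg (fun f : MvPolynomial ℕ E →+* Om => f p) h

theorem elx (h : PsiStmt) : ElxStmt := by
  intro E Om _ _ _ g k z j e hg hrel hj he h1 h2
  obtain ⟨-, r, u, v, hr, huv⟩ := h E (Pi.single z 1) g k hg hrel
  apply hr
  apply hj
  have h3 := congrArg (Polynomial.eval₂RingHom (j : MvPolynomial ℕ E →+* Om)
      (e (MvPolynomial.X z) - j (MvPolynomial.X z))) huv
  rw [map_add, map_mul, map_mul, ev_psi z j e he, ev_psi z j e he, h1, h2, mul_zero, mul_zero,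
    add_zero, Polynomial.coe_eval₂RingHom, Polynomial.eval₂_C] at h3
  rw [map_zero]
  exact h3.symm

end Pool.Agent.PXE.H15
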